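import Pool.Agent.Helper54_ABCT.Oloc

/-!
# Module OIND: induced orientations
-/

set_option autoImplicit false

open MvPolynomial Topology Filter

namespace PosGeom.H54

set_option linter.unusedSectionVars false

variable {ι : Type} [Fintype ι]

theorem near_sign {hR : SrealStmt} {V : PVar ι} {x : ι → ℝ} (hx : x ∈ V.RP) {f : V.K} {a : ℝ}
    (h : V.RVal x f a) (ha : a ≠ 0) :
    ∀ᶠ y in 𝓝 x, ∃ b, V.RVal y f b ∧ SignType.sign b = SignType.sign a := by
  filter_upwards [rv_near hR hx h (abs_pos.2 ha)] with y hy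
  obtain ⟨b, hb, hab⟩ := hy
  refine ⟨b, hb, ?_⟩
  rcases lt_or_gt_of_ne ha with h1 | h1
  · rw [abs_of_neg h1] at hab
    have : b < 0 := by
      have := (abs_lt.1 hab).2
      linarith
    rw [sign_neg h1, sign_neg this]
  · rw [abs_of_pos h1] at hab
    have : 0 < b := by
      have := (abs_lt.1 hab).1
      linarith
    rw [sign_pos h1, sign_pos this]

theorem sgn_mul_pos {a b : ℝ} (hb : 0 < b) : SignType.sign (a * b) = SignType.sign a := by
  rw [sign_mul, sign_pos hb, mul_one]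

theorem oind (hR : SrealStmt) (hV : NvalStmt) (hA : NadaStmt) (hL : NdlStmt)
    (hM : CfrmStmt) (hN1 : NfrmStmt) (hN2 : NlimStmt) (hO : OsgnStmt) (hOl : OlocStmt) :
    OindStmt := by
  intro ι _ d N N' A L'' m h κ a hN hN' hfac e e' he he' hpos hpos' hbd σ σ' hσ hσ' ε ε' hε hε'
  have hAd := hA ι d N N' A L'' m h κ a hN hN' hfac e e' he he'
  obtain ⟨hdL, hdL'⟩ := hL ι d N N' A L'' m h κ a hN hN' hfac e e' he he'
  obtain ⟨hvZ, hvZ'⟩ := hV ι d N N' A L'' m h κ a hN hN' hfac e e' he he'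
  obtain ⟨hvol, _⟩ := hO ι (d + 1) N e hN he hpos σ hσ
  obtain ⟨hvol', _⟩ := hO ι d N' e' hN' he' hpos' σ' hσ'
  have hRP : ∀ z, (z ∈ N.Z ∨ -z ∈ N.Z) → z ∈ N.var.RP := by
    intro z hz
    obtain ⟨τ, x, hτ, hx, hzx⟩ := point_form hz
    exact (hM ι (d + 1) N e hN he z τ x hτ hx hzx).1
  have hRP' : ∀ z, (z ∈ N'.Z ∨ -z ∈ N'.Z) → z ∈ N'.var.RP := by
    intro z hz
    obtain ⟨τ, x, hτ, hx, hzx⟩ := point_form hz
    exact (hM ι d N' e' hN' he' z τ x hτ hx hzx).1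
  have hdet : A.det = 1 ∨ A.det = -1 := hfac.det
  have hdet0 : ((A.det : ℤ) : ℝ) ≠ 0 := by
    rcases hdet with h0 | h0 <;> rw [h0] <;> norm_num
  -- the logarithmic forms
  have hunit : ∀ x, (x ∈ N.Z ∨ -x ∈ N.Z) → ∃ pv, 0 < pv ∧
      N.var.RVal x (∏ j, N.chA e A j) pv := by
    intro x hx
    choose b hb hbv using hvZ x hx
    exact ⟨∏ j, b j, Finset.prod_pos fun j _ => hb j, rv_prod hR (hRP x hx) _ fun j _ => hbv j⟩
  have hunit' : ∀ x, (x ∈ N'.Z ∨ -x ∈ N'.Z) → ∃ pv, 0 < pv ∧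
      N'.var.RVal x (∏ j, N'.chT e' h j) pv := by
    intro x hx
    choose b hb _ hbv using (hvZ' x hx).2
    exact ⟨∏ j, b j, Finset.prod_pos fun j _ => hb j, rv_prod hR (hRP' x hx) _ fun j _ => hbv j⟩
  have hK1 : ∀ x, (x ∈ N.Z ∨ -x ∈ N.Z) → ∀ (J : N.var.K) (jv : ℝ), jv ≠ 0 → N.var.RVal x J jv →
      σ x (J • dW (N.chA e A)) = (SignType.sign jv : ℤ) * (A.det * ε) := by
    intro x hx J jv hjv hJ
    obtain ⟨pv, hpv, hpvv⟩ := hunit x hx
    have hp0 : (∏ j, N.chA e A j) ≠ 0 := by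
      intro h0
      rw [h0] at hpvv
      have h1 := rv_const hR (hRP x hx) 0
      rw [Complex.ofReal_zero, map_zero] at h1
      exact hpv.ne' (rv_uniq hR (hRP x hx) hpvv h1)
    have e1 : J • dW (N.chA e A) = (J * (∏ j, N.chA e A j) *
        algebraMap ℂ N.var.K (((A.det : ℤ) : ℝ) : ℂ)) • dL (N.ch e) := by
      have h2 : dW (N.chA e A) = (∏ j, N.chA e A j) • dL (N.chA e A) := by
        unfold dL
        rw [smul_smul, mul_inv_cancel₀ hp0, one_smul]
      rw [h2, hdL, smul_smul, smul_smul]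
      congr 2
      simp
    have h3 := rv_mul hR (hRP x hx) (rv_mul hR (hRP x hx) hJ hpvv)
      (rv_const hR (hRP x hx) ((A.det : ℤ) : ℝ))
    have hxp : x ∈ pos N.var N.P := by rw [hpos]; exact hx
    rw [e1, hσ.o_mul x hxp _ (hvol x hxp) _ _ h3
      (mul_ne_zero (mul_ne_zero hjv hpv.ne') hdet0), hε x hxp, sign_mul, sgn_mul_pos hpv]
    rcases hdet with h0 | h0
    · rw [h0]; simp
    · rw [h0]; simp
  have hK2 : ∀ x, (x ∈ N'.Z ∨ -x ∈ N'.Z) → ∀ (J : N'.var.K) (jv : ℝ), jv ≠ 0 →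
      N'.var.RVal x J jv → σ' x (J • dW (N'.chT e' h)) = (SignType.sign jv : ℤ) * ε' := by
    intro x hx J jv hjv hJ
    obtain ⟨pv, hpv, hpvv⟩ := hunit' x hx
    have hp0 : (∏ j, N'.chT e' h j) ≠ 0 := by
      intro h0
      rw [h0] at hpvv
      have h1 := rv_const hR (hRP' x hx) 0
      rw [Complex.ofReal_zero, map_zero] at h1
      exact hpv.ne' (rv_uniq hR (hRP' x hx) hpvv h1)
    have e1 : J • dW (N'.chT e' h) = (J * (∏ j, N'.chT e' h j)) • dL (N'.ch e') := by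
      have h2 : dW (N'.chT e' h) = (∏ j, N'.chT e' h j) • dL (N'.chT e' h) := by
        unfold dL
        rw [smul_smul, mul_inv_cancel₀ hp0, one_smul]
      rw [h2, hdL', smul_smul]
    have h3 := rv_mul hR (hRP' x hx) hJ hpvv
    have hxp : x ∈ pos N'.var N'.P := by rw [hpos']; exact hx
    rw [e1, hσ'.o_mul x hxp _ (hvol' x hxp) _ _ h3 (mul_ne_zero hjv hpv.ne'), hε' x hxp,
      sgn_mul_pos hpv]
  constructor
  · intro hInd
    -- one point
    set z₀ : ι → ℝ := fun i => evN (fun _ => (1 : ℝ)) (N'.L i) with hz₀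
    have hz0 : z₀ ∈ N'.Z := ⟨1, fun _ => 1, one_pos, fun _ => one_pos, fun i => by rw [one_mul]⟩
    have hzp : z₀ ∈ pos N'.var (bd N.P N'.var) := by rw [hbd, hpos']; exact Or.inl hz0
    obtain ⟨hfr, hfr'⟩ := hN1 ι d N N' A L'' m h κ a hN hN' hfac e e' he he' z₀ (Or.inl hz0)
    have hcons : (Fin.cons (N.chA e A 0) (fun j : Fin d => N.chA e A j.succ) :
        Fin (d + 1) → N.var.K) = N.chA e A := Fin.cons_self_tail (N.chA e A)
    have h1 := hInd z₀ hzp (N.chA e A 0) (fun j => N.chA e A j.succ) (N'.chT e' h) hAd.z hAd.s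
      (by rw [hcons]; exact hfr) hfr'
    rw [hcons] at h1
    have hcl : z₀ ∈ closure (pos N.var N.P) := by
      refine closure_mono ?_ ((hN2 ι d N N' A L'' m h κ a hN hN' hfac).1 hz0)
      intro x hx
      rw [hpos]
      exact Or.inl hx
    have : (𝓝[pos N.var N.P] z₀).NeBot := mem_closure_iff_nhdsWithin_neBot.1 hcl
    obtain ⟨x, hx1, hx2⟩ := (h1.and self_mem_nhdsWithin).exists
    have hx2' : x ∈ pos N.var N.P := hx2
    have hx3 : x ∈ N.Z ∨ -x ∈ N.Z := by rw [hpos] at hx2'; exact hx2'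
    obtain ⟨b, hb, hbv⟩ := hvZ x hx3 0
    have h2 := (hx1 b hbv).1 hb
    have h3 := hK1 x hx3 1 1 one_ne_zero (by
      have := rv_const hR (hRP x hx3) 1
      simpa using this)
    have h4 := hK2 z₀ (Or.inl hz0) 1 1 one_ne_zero (by
      have := rv_const hR (hRP' z₀ (Or.inl hz0)) 1
      simpa using this)
    rw [one_smul, sign_one] at h3 h4
    rw [h3, h4] at h2
    simpa using h2.symm
  · intro hεε y hy τ g g' hτ hg hfr hfr'
    have hy' : y ∈ N'.Z ∨ -y ∈ N'.Z := by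
      rw [hbd, hpos'] at hy
      exact hy
    obtain ⟨w, J, J', b, c, hb, hc, hw, hτw, hJ, hJe, hJ', hJ'e⟩ :=
      hOl ι d N N' A L'' m h κ a hN hN' hfac e e' he he' y hy' τ g g' hτ hg hfr hfr'
    have hyR' := hRP' y hy'
    have hyR : y ∈ N.var.RP := ⟨hyR'.1, fun F hF => hyR'.2 F (hAd.sub hF)⟩
    have n1 := eventually_nhdsWithin_of_eventually_nhds (s := pos N.var N.P)
      (near_sign (hR := hR) hyR hw hb)
    have n2 := eventually_nhdsWithin_of_eventually_nhds (s := pos N.var N.P)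
      (near_sign (hR := hR) hyR hJ (mul_ne_zero hb hc))
    filter_upwards [n1, n2, self_mem_nhdsWithin] with x hx1 hx2 hx3 bx hbx
    have hx3' : x ∈ pos N.var N.P := hx3
    have hx4 : x ∈ N.Z ∨ -x ∈ N.Z := by rw [hpos] at hx3'; exact hx3'
    obtain ⟨wx, hwx, hws⟩ := hx1
    obtain ⟨jx, hjx, hjs⟩ := hx2
    obtain ⟨v, hv, hvv⟩ := hvZ x hx4 0
    have hb1 : bx = wx * v := by
      rw [hτw] at hbx
      exact rv_uniq hR (hRP x hx4) hbx (rv_mul hR (hRP x hx4) hwx hvv)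
    have hsb : SignType.sign bx = SignType.sign b := by rw [hb1, sgn_mul_pos hv, hws]
    have hjx0 : jx ≠ 0 := by
      intro h0
      rw [h0, sign_zero] at hjs
      exact (mul_ne_zero hb hc) (sign_eq_zero_iff.1 hjs.symm)
    have e1 : σ x (dW (Fin.cons τ g : Fin (d + 1) → N.var.K)) =
        (SignType.sign b : ℤ) * (SignType.sign c : ℤ) * (A.det * ε) := by
      rw [hJe, hK1 x hx4 J jx hjx0 hjx, hjs, sign_mul]
      simp
    have e2 : σ' y (dW g') = (SignType.sign c : ℤ) * ε' := by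
      rw [hJ'e, hK2 y hy' J' c hc hJ']
    rw [e1, e2, hεε]
    constructor
    · intro h0
      rw [← hsb, sign_pos h0]
      simp
    · intro h0
      rw [← hsb, sign_neg h0]
      simp

end PosGeom.H54
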