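import Pool.Agent.Helper54_ABCT.Param

/-!
# Module OLOC: frames adapted to a facet
-/

set_option autoImplicit false

open MvPolynomial Topology

namespace PosGeom.H54

set_option linter.unusedSectionVars false

variable {ι : Type} [Fintype ι]

theorem aeval_ofReal {σ : Type} (x : σ → ℝ) (G : MvPolynomial σ ℝ) :
    aeval (fun i => ((x i : ℝ) : ℂ)) (map Complex.ofRealHom G) = ((eval x G : ℝ) : ℂ) := by
  induction G using MvPolynomial.induction_on with
  | C c => rw [map_C, aeval_C, eval_C]; rfl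
  | add p q hp hq => rw [map_add, map_add, map_add, hp, hq]; push_cast; rfl
  | mul_X p j hp =>
    rw [map_mul, map_mul, map_mul, map_X, aeval_X, eval_X, hp]; push_cast; rfl

section spec

variable (hP : SpecStmt) (hS : SgenStmt) {V C : PVar ι} (hVC : V.I ≤ C.I)

include hP hS hVC

theorem sp_all : (∀ F ∈ V.I, aeval C.gen F = 0) ∧ ∃ i, C.gen i ≠ 0 := by
  refine ⟨fun F hF => ((hS ι C).1 F).2 (hVC hF), ?_⟩
  obtain ⟨i, hi⟩ := C.rel
  exact ⟨i, gen_ne hS C hi⟩

theorem sp_uniq {f : V.K} {a b : C.Frac} (h : V.SpecTo C.gen f a) (h' : V.SpecTo C.gen f b) :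
    a = b :=
  (hP ι V C.Frac C.gen (sp_all hP hS hVC).1 (sp_all hP hS hVC).2).1 f a b h h'

theorem sp_const (c : ℂ) : V.SpecTo C.gen (algebraMap ℂ V.K c) (algebraMap ℂ C.Frac c) :=
  (hP ι V C.Frac C.gen (sp_all hP hS hVC).1 (sp_all hP hS hVC).2).2.1 c

theorem sp_add {f g : V.K} {a b : C.Frac} (h : V.SpecTo C.gen f a) (h' : V.SpecTo C.gen g b) :
    V.SpecTo C.gen (f + g) (a + b) :=
  (hP ι V C.Frac C.gen (sp_all hP hS hVC).1 (sp_all hP hS hVC).2).2.2.1 f g a b h h'

theorem sp_mul {f g : V.K} {a b : C.Frac} (h : V.SpecTo C.gen f a) (h' : V.SpecTo C.gen g b) :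
    V.SpecTo C.gen (f * g) (a * b) :=
  (hP ι V C.Frac C.gen (sp_all hP hS hVC).1 (sp_all hP hS hVC).2).2.2.2.1 f g a b h h'

theorem sp_poly {σ : Type} {y : σ → V.K} {a : σ → C.Frac} (h : ∀ j, V.SpecTo C.gen (y j) (a j))
    (P : MvPolynomial σ ℂ) : V.SpecTo C.gen (aeval y P) (aeval a P) := by
  induction P using MvPolynomial.induction_on with
  | C c =>
    rw [aeval_C, aeval_C]
    exact sp_const hP hS hVC c
  | add p q hp hq =>
    rw [map_add, map_add]
    exact sp_add hP hS hVC hp hq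
  | mul_X p j hp =>
    rw [map_mul, map_mul, aeval_X, aeval_X]
    exact sp_mul hP hS hVC hp (h j)

/-- the restriction to the divisor of a function regular at a point of the divisor -/
theorem compare {z : ι → ℝ} (hz : z ∈ C.RP) {f : V.K} {a : C.K} {v : ℝ}
    (h : V.SpecTo C.gen f (a : C.Frac)) (h' : V.RVal z f v) : C.RVal z a v := by
  obtain ⟨n, F, G, hF, hG, hGz, hf, hv⟩ := h'
  have hGC : aeval C.gen (map Complex.ofRealHom G) ≠ 0 := by
    intro h0
    have h1 := ((hS ι C).1 _).1 h0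
    have h2 := hz.2 _ h1
    rw [aeval_ofReal] at h2
    exact hGz (by exact_mod_cast h2)
  have hs : V.SpecTo C.gen f (aeval C.gen (map Complex.ofRealHom F) /
      aeval C.gen (map Complex.ofRealHom G)) :=
    ⟨n, map Complex.ofRealHom F, map Complex.ofRealHom G, hF.map _, hG.map _, hGC, hf, by field_simp⟩
  have ha := sp_uniq hP hS hVC h hs
  refine ⟨n, F, G, hF, hG, hGz, ?_, hv⟩
  rw [ha]
  field_simp

end spec

theorem fone_det (h1 : FoneStmt) {K : Type} [Field K] [Algebra ℂ K] {d : ℕ} {y : Fin d → K}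
    {D : Fin d → Derivation ℂ K K} (hD : IsDual y D) {g : Fin d → K} {J : K}
    (hJ : dW g = J • dW y) : J = (Matrix.of fun i j => D i (g j)).det := by
  obtain ⟨h0, h2, h3⟩ := h1 K d y D hD
  have h4 := h2 (dW g)
  rw [h3, hJ] at h4
  exact smul_left_injective K h0 h4

theorem coe_aeval {V : PVar ι} {σ : Type} (y : σ → V.K) (p : MvPolynomial σ ℂ) :
    ((aeval y p : V.K) : V.Frac) = aeval (fun j => (y j : V.Frac)) p := by
  have : (V.K.val).comp (aeval y : MvPolynomial σ ℂ →ₐ[ℂ] V.K)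
      = aeval (fun j => (y j : V.Frac)) := by
    refine MvPolynomial.algHom_ext fun i => ?_
    rw [AlgHom.comp_apply, aeval_X, aeval_X]
    rfl
  exact congrArg (fun f => f p) this

theorem oloc (hP : SpecStmt) (hS : SgenStmt) (hR : SrealStmt) (hC : CfldStmt) (hM : CfrmStmt)
    (hV : NvalStmt) (hA : NadaStmt) (hF : FderStmt) (h1 : FoneStmt) (hD : AderStmt)
    (hJ : JacfStmt) : OlocStmt := by
  intro ι _ d N N' A L'' m h κ a hN hN' hfac e e' he he' z hz τ g g' hτ hg hfr hfr'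
  have hAd := hA ι d N N' A L'' m h κ a hN hN' hfac e e' he he'
  obtain ⟨D, hDd⟩ := hF _ _ _ hAd.cV
  obtain ⟨D', hDd'⟩ := hF _ _ _ hAd.cC
  obtain ⟨τ₀, x₁, hτ₀, hx₁, hzx⟩ := point_form hz
  have hzR' : z ∈ N'.var.RP := (hM ι d N' e' hN' he' z τ₀ x₁ hτ₀ hx₁ hzx).1
  have hzR : z ∈ N.var.RP := ⟨hzR'.1, fun F hF => hzR'.2 F (hAd.sub hF)⟩
  obtain ⟨hv0, hvk⟩ := (hV ι d N N' A L'' m h κ a hN hN' hfac e e' he he').2 z hz
  choose b hb hbV hbC using hvk
  -- parametrization of the facet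
  have hκ : κ ≠ 0 := posF_ne hfac.κpos
  have hL' : ∀ i, N'.LF i = κ⁻¹ * evN (fun j => yv d j * h j) (restr (L'' i)) := by
    intro i
    rw [evN_restr, hfac.res]
    field_simp
  obtain ⟨c, hc, hzc⟩ := point_param hS hC hR hN' he' (fun j => yv d j * h j)
    (fun i => restr (L'' i)) κ⁻¹ hL' hz hzR' hb hbC
  obtain ⟨i₁, hi₁⟩ := N'.ne
  obtain ⟨u', hu', hgen'⟩ := (gen_param hS hC hN' he' (fun j => yv d j * h j)
    (fun i => restr (L'' i)) κ⁻¹ hL' hi₁).2
  obtain ⟨i₂, hi₂⟩ := N.ne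
  obtain ⟨u, hu, hgen⟩ := (gen_param hS hC hN he (fun k => ∏ j, yv (d + 1) j ^ A k j) L'' _
    hfac.eq hi₂).2
  have hch : ∀ k, e.symm (∏ j, yv (d + 1) j ^ A k j) = N.chA e A k := by
    intro k
    unfold NCell.chA NCell.ch
    rw [map_prod]
    exact Finset.prod_congr rfl fun j _ => map_zpow₀ _ _ _
  obtain ⟨_, _, _, hJ'4⟩ := hJ ι d N'.var (N'.chT e' h) D'
    (fun i => map (Nat.castRingHom ℝ) (restr (L'' i))) u' b z c hu' hc hzR' hAd.cC hDd'
    (fun i => by rw [evN_rc]; exact hgen' i) (fun i => by rw [evN_r]; exact hzc i) hbC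
  have hxv : ∀ j, N.var.RVal z (N.chA e A j) ((Fin.cons 0 b : Fin (d + 1) → ℝ) j) := by
    intro j
    refine Fin.cases ?_ (fun j => ?_) j
    · rw [Fin.cons_zero]; exact hv0
    · rw [Fin.cons_succ]; exact hbV j
  obtain ⟨_, hJ2, hJ3, hJ4⟩ := hJ ι (d + 1) N.var (N.chA e A) D
    (fun i => map (Nat.castRingHom ℝ) (L'' i)) u (Fin.cons 0 b) z c hu hc hzR hAd.cV hDd
    (fun i => by
      rw [evN_rc]
      have := hgen i
      simp only [hch] at this
      exact this)
    (fun i => by rw [evN_r, ← evN_restr]; exact hzc i) hxv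
  obtain ⟨J', c', hJ'v, hc', hJ'e⟩ := hJ'4 g' hfr'
  obtain ⟨J, β, hJv, hβ, hJe⟩ := hJ4 _ hfr
  obtain ⟨av, hav, _⟩ := hfr
  have hτv : N.var.RVal z τ (av 0) := by have := hav 0; rwa [Fin.cons_zero] at this
  have hgv : ∀ j, N.var.RVal z (g j) (av j.succ) := by
    intro j; have := hav j.succ; rwa [Fin.cons_succ] at this
  obtain ⟨P, Q, hQ, hPQ⟩ := hJ3 τ (av 0) hτv
  -- `P` is divisible by the first variable
  have hsy : ∀ j, N.var.SpecTo N'.var.gen (N.chA e A j)
      ((Fin.cons 0 (fun j => (N'.chT e' h j : N'.var.Frac)) : Fin (d + 1) → N'.var.Frac) j) := by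
    intro j
    refine Fin.cases ?_ (fun j => ?_) j
    · rw [Fin.cons_zero]; exact hAd.z
    · rw [Fin.cons_succ]; exact hAd.s j
  have hs1 := sp_poly hP hS hAd.sub hsy (map Complex.ofRealHom P)
  have hs2 := sp_mul hP hS hAd.sub hτ (sp_poly hP hS hAd.sub hsy (map Complex.ofRealHom Q))
  rw [hPQ] at hs2
  have hP0 := sp_uniq hP hS hAd.sub hs1 hs2
  rw [zero_mul, ← aeval_restr, ← coe_aeval] at hP0
  have hP1 : aeval (N'.chT e' h) (restr (map Complex.ofRealHom P)) = 0 := by exact_mod_cast hP0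
  have hP2 : restr (map Complex.ofRealHom P) = 0 := by
    have := hAd.cC.ind
    exact this (by rw [hP1, map_zero])
  rw [← map_restr] at hP2
  have hP3 : restr P = 0 := map_injective Complex.ofRealHom Complex.ofReal_injective
    (by rw [hP2, map_zero])
  obtain ⟨W, hW⟩ := restr_eq_zero hP3
  have hQ0 : aeval (N.chA e A) (map Complex.ofRealHom Q) ≠ 0 := by
    intro h0
    have h2 : map Complex.ofRealHom Q = 0 := hAd.cV.ind (by rw [h0, map_zero])
    have h3 : Q = 0 := map_injective Complex.ofRealHom Complex.ofReal_injective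
      (by rw [h2, map_zero])
    rw [h3, map_zero] at hQ
    exact hQ rfl
  set w : N.var.K := aeval (N.chA e A) (map Complex.ofRealHom W) *
    (aeval (N.chA e A) (map Complex.ofRealHom Q))⁻¹ with hw
  set bb : ℝ := eval (Fin.cons 0 b : Fin (d + 1) → ℝ) W *
    (eval (Fin.cons 0 b : Fin (d + 1) → ℝ) Q)⁻¹ with hbb
  have hwv : N.var.RVal z w bb :=
    rv_mul hR hzR (rv_poly hR hzR hxv W) (rv_inv hR hzR (rv_poly hR hzR hxv Q) hQ)
  have hτw : τ = w * N.chA e A 0 := by
    rw [hW, map_mul, map_X, map_mul, aeval_X] at hPQ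
    rw [hw]
    field_simp
    rw [hPQ]
    ring
  -- the Jacobian
  have hwd := hJ2 w bb hwv
  choose wd hwd using hwd
  have hgd : ∀ i j, ∃ q, N.var.RVal z (D i (g j)) q := fun i j => hJ2 (g j) _ (hgv j) i
  choose G hG using hgd
  have hτd : ∀ i, N.var.RVal z (D i τ) (if i = 0 then bb else 0) := by
    intro i
    have h2 : D i τ = w * D i (N.chA e A 0) + N.chA e A 0 * D i w := by
      rw [hτw, Derivation.leibniz]
      rfl
    have h3 := rv_mul hR hzR hv0 (hwd i)
    rw [h2, hDd.1 i 0]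
    by_cases hi : i = 0
    · rw [if_pos hi, if_pos hi]
      have := rv_add hR hzR hwv h3
      simpa using this
    · rw [if_neg hi, if_neg hi]
      simpa using h3
  set mm : Matrix (Fin (d + 1)) (Fin (d + 1)) ℝ := Matrix.of fun i j =>
    (Fin.cons (if i = 0 then bb else 0) (G i) : Fin (d + 1) → ℝ) j with hmm
  have hdet : N.var.RVal z (Matrix.of fun i j => D i ((Fin.cons τ g : Fin (d + 1) → N.var.K) j)).det
      mm.det := by
    refine rv_det hR hzR fun i j => ?_
    rw [hmm, Matrix.of_apply, Matrix.of_apply]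
    refine Fin.cases ?_ (fun j => ?_) j
    · rw [Fin.cons_zero, Fin.cons_zero]; exact hτd i
    · rw [Fin.cons_succ, Fin.cons_succ]; exact hG i j
  have hdet' : N'.var.RVal z (Matrix.of fun i j => D' i (g' j)).det
      (Matrix.of fun (i j : Fin d) => G i.succ j).det := by
    refine rv_det hR hzR' fun i j => ?_
    rw [Matrix.of_apply, Matrix.of_apply]
    exact compare hP hS hAd.sub hzR' ((hD ι d N.var N'.var _ _ hAd D D' hDd hDd' (g j) (g' j)
      (hg j)).2 i) (hG i.succ j)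
  have hmd : mm.det = bb * (Matrix.of fun (i j : Fin d) => G i.succ j).det := by
    rw [Matrix.det_succ_column_zero, Finset.sum_eq_single (0 : Fin (d + 1))]
    · rw [hmm, Matrix.of_apply, Fin.cons_zero, if_pos rfl]
      simp only [Fin.val_zero, pow_zero, one_mul]
      congr 2
    · intro i _ hi
      rw [hmm, Matrix.of_apply, Fin.cons_zero, if_neg hi]
      simp
    · intro h0; exact absurd (Finset.mem_univ _) h0
  have hβ1 : β = mm.det := by
    rw [fone_det h1 hDd hJe] at hJv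
    exact rv_uniq hR hzR hJv hdet
  have hc1 : c' = (Matrix.of fun (i j : Fin d) => G i.succ j).det := by
    rw [fone_det h1 hDd' hJ'e] at hJ'v
    exact rv_uniq hR hzR' hJ'v hdet'
  have hβ2 : β = bb * c' := by rw [hβ1, hmd, hc1]
  refine ⟨w, J, J', bb, c', ?_, hc', hwv, hτw, hβ2 ▸ hJv, hJe, hJ'v, hJ'e⟩
  intro h0
  exact hβ (by rw [hβ2, h0, zero_mul])

end PosGeom.H54
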