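import Pool.Agent.Helper93_ABCT.StmtI

/-!
# Auxiliary facts: algebra of values, generic coordinates
-/

set_option autoImplicit false

open MvPolynomial Topology

namespace PosGeom.H54

section real

variable {ι : Type} [Fintype ι] (hR : SrealStmt) {V : PVar ι} {x : ι → ℝ} (hx : x ∈ V.RP)

/-- real values form a ring -/
def RV : Subring (V.K × ℝ) where
  carrier := {p | V.RVal x p.1 p.2}
  mul_mem' {p q} hp hq := (hR ι V x hx).2.2.2.2.1 p.1 q.1 p.2 q.2 hp hq
  add_mem' {p q} hp hq := (hR ι V x hx).2.2.2.1 p.1 q.1 p.2 q.2 hp hq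
  one_mem' := by
    have := (hR ι V x hx).2.2.1 1
    show V.RVal x (1 : V.K) (1 : ℝ)
    simpa using this
  zero_mem' := by
    have := (hR ι V x hx).2.2.1 0
    show V.RVal x (0 : V.K) (0 : ℝ)
    simpa using this
  neg_mem' {p} hp := by
    have h1 := (hR ι V x hx).2.2.1 (-1)
    have h2 := (hR ι V x hx).2.2.2.2.1 _ p.1 _ p.2 h1 hp
    show V.RVal x (-p.1) (-p.2)
    simpa using h2

theorem mem_RV {f : V.K} {a : ℝ} : (f, a) ∈ RV hR hx ↔ V.RVal x f a := Iff.rfl

include hR hx

theorem rv_uniq {f : V.K} {a b : ℝ} (h : V.RVal x f a) (h' : V.RVal x f b) : a = b :=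
  (hR ι V x hx).2.1 f a b h h'

theorem rv_const (c : ℝ) : V.RVal x (algebraMap ℂ V.K (c : ℂ)) c := (hR ι V x hx).2.2.1 c

theorem rv_add {f g : V.K} {a b : ℝ} (h : V.RVal x f a) (h' : V.RVal x g b) :
    V.RVal x (f + g) (a + b) := (hR ι V x hx).2.2.2.1 f g a b h h'

theorem rv_mul {f g : V.K} {a b : ℝ} (h : V.RVal x f a) (h' : V.RVal x g b) :
    V.RVal x (f * g) (a * b) := (hR ι V x hx).2.2.2.2.1 f g a b h h'

theorem rv_inv {f : V.K} {a : ℝ} (h : V.RVal x f a) (ha : a ≠ 0) : V.RVal x f⁻¹ a⁻¹ :=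
  (hR ι V x hx).2.2.2.2.2.1 f a h ha

theorem rv_prod {σ : Type} (s : Finset σ) {f : σ → V.K} {a : σ → ℝ}
    (h : ∀ j ∈ s, V.RVal x (f j) (a j)) : V.RVal x (∏ j ∈ s, f j) (∏ j ∈ s, a j) := by
  have := Subring.prod_mem (RV hR hx) (t := s) (f := fun j => (f j, a j)) h
  rw [← mem_RV hR hx]
  convert this
  · exact (map_prod (RingHom.fst V.K ℝ) (fun j => (f j, a j)) s).symm
  · exact (map_prod (RingHom.snd V.K ℝ) (fun j => (f j, a j)) s).symm

theorem rv_det {n : ℕ} {M : Matrix (Fin n) (Fin n) V.K} {m : Matrix (Fin n) (Fin n) ℝ}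
    (h : ∀ i j, V.RVal x (M i j) (m i j)) : V.RVal x M.det m.det := by
  let M' : Matrix (Fin n) (Fin n) (V.K × ℝ) := Matrix.of fun i j => (M i j, m i j)
  have hd : M'.det ∈ RV hR hx := by
    rw [Matrix.det_apply]
    refine Subring.sum_mem _ fun σ _ => ?_
    rw [Units.smul_def]
    refine Subring.zsmul_mem _ (Subring.prod_mem _ fun i _ => ?_) _
    exact h _ _
  rw [← mem_RV hR hx]
  convert hd
  · exact (RingHom.map_det (RingHom.fst V.K ℝ) M').symm
  · exact (RingHom.map_det (RingHom.snd V.K ℝ) M').symm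

theorem rv_poly {σ : Type} {y : σ → V.K} {x₀ : σ → ℝ} (h : ∀ j, V.RVal x (y j) (x₀ j))
    (P : MvPolynomial σ ℝ) :
    V.RVal x (aeval y (map Complex.ofRealHom P)) (eval x₀ P) := by
  induction P using MvPolynomial.induction_on with
  | C a =>
    rw [map_C, aeval_C, eval_C]
    exact rv_const hR hx a
  | add p q hp hq =>
    rw [map_add, map_add, map_add]
    exact rv_add hR hx hp hq
  | mul_X p j hp =>
    rw [map_mul, map_mul, map_mul, map_X, aeval_X, eval_X]
    exact rv_mul hR hx hp (h j)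

theorem rv_near {f : V.K} {a : ℝ} (h : V.RVal x f a) {ε : ℝ} (hε : 0 < ε) :
    ∀ᶠ y in 𝓝 x, ∃ b, V.RVal y f b ∧ |b - a| < ε := (hR ι V x hx).2.2.2.2.2.2.2 f a h ε hε

end real

/-! ### natural coefficients -/

section nat

theorem evN_c {σ K : Type} [CommRing K] [Algebra ℂ K] (x : σ → K) (p : MvPolynomial σ ℕ) :
    aeval x (map (Nat.castRingHom ℂ) p) = evN x p := by
  unfold evN
  rw [aeval_def, eval₂_map]
  congr 1
  ext
  simp

theorem evN_rc {σ K : Type} [CommRing K] [Algebra ℂ K] (x : σ → K) (p : MvPolynomial σ ℕ) :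
    aeval x (map Complex.ofRealHom (map (Nat.castRingHom ℝ) p)) = evN x p := by
  rw [MvPolynomial.map_map, ← evN_c]
  congr 2

theorem evN_r {σ : Type} (x : σ → ℝ) (p : MvPolynomial σ ℕ) :
    eval x (map (Nat.castRingHom ℝ) p) = evN x p := by
  unfold evN
  rw [eval_map]

theorem map_evN {σ R S : Type} [CommSemiring R] [CommSemiring S] (f : R →+* S) (x : σ → R)
    (p : MvPolynomial σ ℕ) : f (evN x p) = evN (f ∘ x) p := by
  unfold evN
  rw [← coe_eval₂Hom, ← coe_eval₂Hom, ← RingHom.comp_apply]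
  congr 1
  refine MvPolynomial.ringHom_ext ?_ ?_
  · intro r; simp
  · intro i; simp

theorem evN_pos {σ : Type} {x : σ → ℝ} (hx : ∀ j, 0 < x j) {p : MvPolynomial σ ℕ} (hp : p ≠ 0) :
    0 < evN x p := by
  unfold evN
  rw [eval₂_eq]
  have h0 : ∀ μ : σ →₀ ℕ, 0 < ∏ i ∈ μ.support, x i ^ μ i := fun μ =>
    Finset.prod_pos fun i _ => pow_pos (hx i) _
  obtain ⟨μ, hμ⟩ := MvPolynomial.ne_zero_iff.1 hp
  refine Finset.sum_pos' (fun ν _ => ?_) ⟨μ, mem_support_iff.2 hμ, ?_⟩
  · exact mul_nonneg (by simp) (h0 ν).le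
  · refine mul_pos ?_ (h0 μ)
    simp only [eq_natCast, Nat.cast_pos]
    exact Nat.pos_of_ne_zero hμ

end nat

/-! ### restriction to the first coordinate equal to zero -/

section restr

variable {R : Type} [CommSemiring R] {d : ℕ}

/-- put the first variable equal to zero -/
noncomputable def restr : MvPolynomial (Fin (d + 1)) R →ₐ[R] MvPolynomial (Fin d) R :=
  aeval (Fin.cons 0 (fun j => X j) : Fin (d + 1) → MvPolynomial (Fin d) R)

theorem restr_X0 : restr (X 0 : MvPolynomial (Fin (d + 1)) R) = 0 := by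
  rw [restr, aeval_X, Fin.cons_zero]

theorem restr_Xs (j : Fin d) : restr (X j.succ : MvPolynomial (Fin (d + 1)) R) = X j := by
  rw [restr, aeval_X, Fin.cons_succ]

theorem restr_C (r : R) : restr (C r : MvPolynomial (Fin (d + 1)) R) = C r := by
  rw [restr, aeval_C]
  rfl

theorem evN_restr {S : Type} [CommSemiring S] (b : Fin d → S) (L : MvPolynomial (Fin (d + 1)) ℕ) :
    evN b (restr L) = evN (Fin.cons 0 b : Fin (d + 1) → S) L := by
  unfold evN
  rw [← coe_eval₂Hom, ← coe_eval₂Hom]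
  have : (eval₂Hom (Nat.castRingHom S) b).comp (restr : MvPolynomial (Fin (d + 1)) ℕ →ₐ[ℕ] _).toRingHom
      = eval₂Hom (Nat.castRingHom S) (Fin.cons 0 b : Fin (d + 1) → S) := by
    refine MvPolynomial.ringHom_ext ?_ ?_
    · intro r; simp
    · intro i
      refine Fin.cases ?_ (fun j => ?_) i
      · show eval₂Hom (Nat.castRingHom S) b (restr (X 0)) = _
        rw [restr_X0]; simp
      · show eval₂Hom (Nat.castRingHom S) b (restr (X j.succ)) = _
        rw [restr_Xs]; simp
  exact congrArg (fun f => f L) this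

theorem aeval_restr {K : Type} [CommSemiring K] [Algebra R K] (b : Fin d → K)
    (L : MvPolynomial (Fin (d + 1)) R) :
    aeval b (restr L) = aeval (Fin.cons 0 b : Fin (d + 1) → K) L := by
  have : (aeval b : MvPolynomial (Fin d) R →ₐ[R] K).comp restr
      = aeval (Fin.cons 0 b : Fin (d + 1) → K) := by
    refine MvPolynomial.algHom_ext fun i => ?_
    refine Fin.cases ?_ (fun j => ?_) i
    · show aeval b (restr (X 0)) = _
      rw [restr_X0]; simp
    · show aeval b (restr (X j.succ)) = _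
      rw [restr_Xs]; simp
  exact congrArg (fun f => f L) this

theorem map_restr {S : Type} [CommSemiring S] (f : R →+* S) (L : MvPolynomial (Fin (d + 1)) R) :
    map f (restr L) = restr (map f L) := by
  have : (map f).comp (restr : MvPolynomial (Fin (d + 1)) R →ₐ[R] _).toRingHom
      = (restr : MvPolynomial (Fin (d + 1)) S →ₐ[S] _).toRingHom.comp (map f) := by
    refine MvPolynomial.ringHom_ext ?_ ?_
    · intro r
      show map f (restr (C r)) = restr (map f (C r))
      rw [restr_C, map_C, map_C, restr_C]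
    · intro i
      refine Fin.cases ?_ (fun j => ?_) i
      · show map f (restr (X 0)) = restr (map f (X 0))
        rw [restr_X0, map_X, restr_X0, map_zero]
      · show map f (restr (X j.succ)) = restr (map f (X j.succ))
        rw [restr_Xs, map_X, map_X, restr_Xs]
  exact congrArg (fun g => g L) this

theorem restr_eq_zero {L : MvPolynomial (Fin (d + 1)) R} (h : restr L = 0) :
    ∃ W, L = X 0 * W := by
  have key : ∀ P : MvPolynomial (Fin (d + 1)) R, (finSuccEquiv R d P).coeff 0 = restr P := by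
    intro P
    have h1 : (Polynomial.constantCoeff (R := MvPolynomial (Fin d) R)).comp
        (finSuccEquiv R d : MvPolynomial (Fin (d + 1)) R →+* _)
        = (restr : MvPolynomial (Fin (d + 1)) R →ₐ[R] _).toRingHom := by
      refine MvPolynomial.ringHom_ext ?_ ?_
      · intro r
        show (finSuccEquiv R d (C r)).coeff 0 = restr (C r)
        rw [restr_C, finSuccEquiv_apply, eval₂Hom_C]
        simp
      · intro i
        refine Fin.cases ?_ (fun j => ?_) i
        · show (finSuccEquiv R d (X 0)).coeff 0 = restr (X 0)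
          rw [restr_X0, finSuccEquiv_X_zero]; simp
        · show (finSuccEquiv R d (X j.succ)).coeff 0 = restr (X j.succ)
          rw [restr_Xs, finSuccEquiv_X_succ]; simp
    exact congrArg (fun f => f P) h1
  have h2 : (finSuccEquiv R d L).coeff 0 = 0 := by rw [key, h]
  obtain ⟨q, hq⟩ := Polynomial.X_dvd_iff.2 h2
  refine ⟨(finSuccEquiv R d).symm q, ?_⟩
  apply (finSuccEquiv R d).injective
  rw [map_mul, finSuccEquiv_X_zero, AlgEquiv.apply_symm_apply, hq]

end restr

end PosGeom.H54
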