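import Pool.Agent.Helper54_ABCT.Base

/-!
# Generic coordinates as polynomials in chart variables, points of the facet
-/

set_option autoImplicit false

open MvPolynomial Topology

namespace PosGeom.H54

set_option linter.unusedSectionVars false

variable {ι : Type} [Fintype ι]

theorem yv_poly {d : ℕ} (p : MvPolynomial (Fin d) ℂ) :
    aeval (yv d) p = algebraMap (MvPolynomial (Fin d) ℂ) (Fd d) p := by
  have : (aeval (yv d) : MvPolynomial (Fin d) ℂ →ₐ[ℂ] Fd d)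
      = IsScalarTower.toAlgHom ℂ (MvPolynomial (Fin d) ℂ) (Fd d) := by
    refine MvPolynomial.algHom_ext fun i => ?_
    rw [aeval_X]
    rfl
  exact congrArg (fun f => f p) this

theorem evN_yv_ne {d : ℕ} {p : MvPolynomial (Fin d) ℕ} (hp : p ≠ 0) : evN (yv d) p ≠ 0 := by
  rw [← evN_c, yv_poly]
  intro h
  have h1 := (IsFractionRing.injective (MvPolynomial (Fin d) ℂ) (Fd d)) (h.trans (map_zero _).symm)
  exact hp (map_injective (Nat.castRingHom ℂ) Nat.cast_injective (by rw [h1, map_zero]))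

theorem posF_ne {d : ℕ} {f : Fd d} (h : PosF f) : f ≠ 0 := by
  obtain ⟨N, D, hN, hD, rfl⟩ := h
  exact div_ne_zero (evN_yv_ne hN) (evN_yv_ne hD)

theorem LF_ne {d : ℕ} {N : NCell ι d} {i : ι} (hi : i ∈ N.M) : N.LF i ≠ 0 := evN_yv_ne hi

theorem yv_ne {d : ℕ} (j : Fin d) : yv d j ≠ 0 := by
  unfold yv
  intro h
  have h1 := (IsFractionRing.injective (MvPolynomial (Fin d) ℂ) (Fd d)) (h.trans (map_zero _).symm)
  exact X_ne_zero j h1

/-- quotient of two coordinates in the function field -/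
noncomputable def qq (V : PVar ι) (i j : ι) : V.K :=
  ⟨V.gen i / V.gen j, IntermediateField.subset_adjoin _ _ ⟨i, j, rfl⟩⟩

theorem gen_ne (hS : SgenStmt) (V : PVar ι) {i : ι} (h : (X i : MvPolynomial ι ℂ) ∉ V.I) :
    V.gen i ≠ 0 := by
  intro h0
  apply h
  rw [← (hS ι V).1, aeval_X, h0]

theorem var_gen_ne (hS : SgenStmt) (hC : CfldStmt) {d : ℕ} {N : NCell ι d} (hN : N.Good) {i : ι}
    (hi : i ∈ N.M) : N.var.gen i ≠ 0 := by
  refine gen_ne hS _ fun h => ?_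
  rw [← (hC ι d N hN).2.2.2 (X i) 1 (isHomogeneous_X ℂ i), aeval_X] at h
  exact LF_ne hi h

/-- the coordinates of the generic point, up to a common factor, as polynomials in elements of the
function field -/
theorem gen_param (hS : SgenStmt) (hC : CfldStmt) {d : ℕ} {N : NCell ι d} (hN : N.Good)
    {e : N.var.K ≃ₐ[ℂ] Fd d} (he : N.IsE e) {k : ℕ} (t : Fin k → Fd d)
    (L : ι → MvPolynomial (Fin k) ℕ) (U : Fd d) (hL : ∀ i, N.LF i = U * evN t (L i)) {i₀ : ι}
    (hi₀ : i₀ ∈ N.M) :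
    (∀ i, qq N.var i i₀ * evN (fun j => e.symm (t j)) (L i₀) = evN (fun j => e.symm (t j)) (L i)) ∧
    ∃ u : N.var.Frac, u ≠ 0 ∧ ∀ i, N.var.gen i =
      u * evN (fun j => ((e.symm (t j) : N.var.K) : N.var.Frac)) (L i) := by
  have hg0 := var_gen_ne hS hC hN hi₀
  have hLF0 : N.LF i₀ ≠ 0 := LF_ne hi₀
  have hU : U ≠ 0 := fun h => hLF0 (by rw [hL, h, zero_mul])
  have hE0 : evN t (L i₀) ≠ 0 := fun h => hLF0 (by rw [hL, h, mul_zero])
  have hq : ∀ i, e (qq N.var i i₀) = N.LF i / N.LF i₀ := by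
    intro i
    rw [← he]
    refine ⟨1, X i, X i₀, isHomogeneous_X ℂ i, isHomogeneous_X ℂ i₀, ?_, ?_, ?_⟩
    · rw [aeval_X]; exact hLF0
    · rw [aeval_X, aeval_X]
      show N.var.gen i / N.var.gen i₀ * N.var.gen i₀ = N.var.gen i
      field_simp
    · rw [aeval_X, aeval_X]
      field_simp
  have hmap : ∀ p : MvPolynomial (Fin k) ℕ, e.symm (evN t p) = evN (fun j => e.symm (t j)) p := by
    intro p
    exact map_evN (e.symm : Fd d →+* N.var.K) t p
  have h1 : ∀ i, qq N.var i i₀ * evN (fun j => e.symm (t j)) (L i₀) =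
      evN (fun j => e.symm (t j)) (L i) := by
    intro i
    rw [← hmap, ← hmap]
    apply e.injective
    rw [map_mul, hq, AlgEquiv.apply_symm_apply, AlgEquiv.apply_symm_apply, hL i, hL i₀]
    field_simp
  refine ⟨h1, ?_⟩
  have hmap2 : ∀ p : MvPolynomial (Fin k) ℕ, ((evN (fun j => e.symm (t j)) p : N.var.K) : N.var.Frac)
      = evN (fun j => ((e.symm (t j) : N.var.K) : N.var.Frac)) p := by
    intro p
    exact map_evN (algebraMap N.var.K N.var.Frac) (fun j => e.symm (t j)) p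
  have hE : evN (fun j => ((e.symm (t j) : N.var.K) : N.var.Frac)) (L i₀) ≠ 0 := by
    rw [← hmap2, ← hmap]
    intro h
    apply hE0
    have h2 : e.symm (evN t (L i₀)) = 0 := by exact_mod_cast h
    exact (map_eq_zero e.symm).1 h2
  refine ⟨N.var.gen i₀ / evN (fun j => ((e.symm (t j) : N.var.K) : N.var.Frac)) (L i₀),
    div_ne_zero hg0 hE, fun i => ?_⟩
  have h3 := congrArg (fun f : N.var.K => (f : N.var.Frac)) (h1 i)
  have h4 : N.var.gen i / N.var.gen i₀ * evN (fun j => ((e.symm (t j) : N.var.K) : N.var.Frac)) (L i₀)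
      = evN (fun j => ((e.symm (t j) : N.var.K) : N.var.Frac)) (L i) := by
    rw [← hmap2, ← hmap2]
    exact h3
  rw [← h4]
  field_simp

theorem qq_val (hS : SgenStmt) (hC : CfldStmt) {d : ℕ} {N : NCell ι d} (hN : N.Good) {z : ι → ℝ}
    {i i₀ : ι} (hi₀ : i₀ ∈ N.M) (hz : z i₀ ≠ 0) : N.var.RVal z (qq N.var i i₀) (z i / z i₀) := by
  have hg0 := var_gen_ne hS hC hN hi₀
  refine ⟨1, X i, X i₀, isHomogeneous_X ℝ i, isHomogeneous_X ℝ i₀, ?_, ?_, ?_⟩
  · rw [eval_X]; exact hz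
  · rw [map_X, map_X, aeval_X, aeval_X]
    show N.var.gen i / N.var.gen i₀ * N.var.gen i₀ = N.var.gen i
    field_simp
  · rw [eval_X, eval_X]
    field_simp

/-- points of the two components of the open cell -/
theorem point_form {d : ℕ} {N : NCell ι d} {z : ι → ℝ} (hz : z ∈ N.Z ∨ -z ∈ N.Z) :
    ∃ (τ : ℝ) (x : Fin d → ℝ), τ ≠ 0 ∧ (∀ j, 0 < x j) ∧ ∀ i, z i = τ * evN x (N.L i) := by
  rcases hz with ⟨τ, x, hτ, hx, h⟩ | ⟨τ, x, hτ, hx, h⟩
  · exact ⟨τ, x, hτ.ne', hx, h⟩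
  · refine ⟨-τ, x, by linarith [hτ] |> fun h : -τ < 0 => h.ne, hx, fun i => ?_⟩
    have := h i
    simp only [Pi.neg_apply] at this
    linarith

/-- the point `z` is, up to a factor, the value of the coordinate polynomials at the values of the
chart functions -/
theorem point_param (hS : SgenStmt) (hC : CfldStmt) (hR : SrealStmt) {d : ℕ} {N : NCell ι d}
    (hN : N.Good) {e : N.var.K ≃ₐ[ℂ] Fd d} (he : N.IsE e) {k : ℕ} (t : Fin k → Fd d)
    (L : ι → MvPolynomial (Fin k) ℕ) (U : Fd d) (hL : ∀ i, N.LF i = U * evN t (L i)) {z : ι → ℝ}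
    (hz : z ∈ N.Z ∨ -z ∈ N.Z) (hzR : z ∈ N.var.RP) {b : Fin k → ℝ} (hb : ∀ j, 0 < b j)
    (hv : ∀ j, N.var.RVal z (e.symm (t j)) (b j)) :
    ∃ c : ℝ, c ≠ 0 ∧ ∀ i, z i = c * evN b (L i) := by
  obtain ⟨i₀, hi₀⟩ := N.ne
  have hi₀' : i₀ ∈ N.M := hi₀
  obtain ⟨τ, x, hτ, hx, hzx⟩ := point_form hz
  have hz0 : z i₀ ≠ 0 := by
    rw [hzx]
    exact mul_ne_zero hτ (evN_pos hx hi₀).ne'
  have hL0 : L i₀ ≠ 0 := by
    intro h
    apply LF_ne hi₀'
    rw [hL, h]
    simp [evN]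
  have hE : 0 < evN b (L i₀) := evN_pos hb hL0
  have hval : ∀ p : MvPolynomial (Fin k) ℕ, N.var.RVal z (evN (fun j => e.symm (t j)) p) (evN b p) := by
    intro p
    rw [← evN_rc, ← evN_r]
    exact rv_poly hR hzR hv _
  refine ⟨z i₀ / evN b (L i₀), div_ne_zero hz0 hE.ne', fun i => ?_⟩
  have h1 := rv_mul hR hzR (qq_val hS hC hN (i := i) hi₀' hz0) (hval (L i₀))
  rw [(gen_param hS hC hN he t L U hL hi₀').1 i] at h1
  have h2 := rv_uniq hR hzR h1 (hval (L i))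
  rw [← h2]
  field_simp

end PosGeom.H54
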